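import Pool.Agent.L7h32.PI.Conv

/-!
# Project PI: the converse (`S_CONV`)
-/

set_option autoImplicit false
set_option linter.unusedSectionVars false

open Set Filter Topology Metric
open scoped ContDiff NNReal

noncomputable section

namespace Pool.Agent.L7h67.PI

open Pool.Agent.L7h32.AA Pool.Agent.L7h32.PI

variable {E : Type} [NormedAddCommGroup E] [NormedSpace ℝ E]

/-- the candidate for the linear part at `q = (s, x)` -/
def TT (N : E → E) (M : ℝ × E → E) (A : E →L[ℝ] E) (q : ℝ × E) : E →L[ℝ] E :=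
  ((fderiv ℝ M q).comp (ContinuousLinearMap.inr ℝ ℝ E)).comp (fderiv ℝ N q.2) +
    A.comp (ContinuousLinearMap.id ℝ E - fderiv ℝ N q.2)

/-- `c` is good at `q` -/
def Good (N : E → E) (M : ℝ × E → E) (c : ℝ) (q : ℝ × E) : Prop :=
  ∃ A : E →L[ℝ] E, ‖A‖ ≤ c⁻¹ ∧ (∀ v, c * ‖v‖ ≤ ‖TT N M A q v‖) ∧ ∀ v, ‖TT N M A q v‖ ≤ c⁻¹ * ‖v‖

theorem Good.mono {N : E → E} {M : ℝ × E → E} {c c' : ℝ} {q : ℝ × E} (h : Good N M c q)
    (hc : 0 < c') (hcc : c' ≤ c) : Good N M c' q := by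
  obtain ⟨A, h1, h2, h3⟩ := h
  have h4 : c⁻¹ ≤ c'⁻¹ := inv_anti₀ hc hcc
  refine ⟨A, h1.trans h4, fun v => ?_, fun v => ?_⟩
  · exact (mul_le_mul_of_nonneg_right hcc (norm_nonneg v)).trans (h2 v)
  · exact (h3 v).trans (mul_le_mul_of_nonneg_right h4 (norm_nonneg v))

variable [FiniteDimensional ℝ E] {K U : Set E} {N : E → E} {M : ℝ × E → E}

theorem fderiv_slice (hM : ContDiff ℝ ∞ M) (s : ℝ) (x : E) :
    HasFDerivAt (fun y => M (s, y)) ((fderiv ℝ M (s, x)).comp (ContinuousLinearMap.inr ℝ ℝ E)) x := by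
  have h1 : HasFDerivAt M (fderiv ℝ M (s, x)) (s, x) :=
    (hM.differentiable (by simp)).differentiableAt.hasFDerivAt
  have h2 : HasFDerivAt (fun y : E => (s, y)) (ContinuousLinearMap.inr ℝ ℝ E) x :=
    hasFDerivAt_prodMk_right s x
  exact h1.comp x h2

/-- the linear part is invertible at one point -/
theorem inj (hR : Ret K U N) (hK : IsPreconnected K) (hM : ContDiff ℝ ∞ M)
    (hd : ∀ t, IsDiff K fun x => M (t, x)) (s : ℝ) {x : E} (hx : x ∈ K) :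
    ∃ A : E →L[ℝ] E, ∀ v, TT N M A (s, x) v = 0 → v = 0 := by
  obtain ⟨g, hgdef⟩ : ∃ g : E → E, g = fun y => M (s, y) := ⟨_, rfl⟩
  have hgd : IsDiff K g := by rw [hgdef]; exact hd s
  have hemb : Emb K U N g := hgd.emb hR
  have hU := hR.opn.mem_nhds (hR.sub hx)
  have hgx : g x ∈ K := hgd.2.1 x hx
  have hNx : N x = x := hR.fix x hx
  obtain ⟨P, hPdef⟩ : ∃ P, P = fderiv ℝ N x := ⟨_, rfl⟩
  obtain ⟨Q, hQdef⟩ : ∃ Q, Q = fderiv ℝ N (g x) := ⟨_, rfl⟩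
  have hP : ∀ v, P (P v) = P v := fun v => by rw [hPdef]; exact Pool.Agent.L7h69.PI.idem hR hx v
  obtain ⟨A, hA1, hA2, hA3⟩ := Pool.Agent.L7h69.PI.exA P Q hP (by
    rw [hPdef, hQdef]
    exact Pool.Agent.L7h50.PI.s_RK E K U N hR hK x hx (g x) hgx)
  obtain ⟨D, hD⟩ : ∃ D : E →L[ℝ] E, D = (fderiv ℝ M (s, x)).comp (ContinuousLinearMap.inr ℝ ℝ E) :=
    ⟨_, rfl⟩
  have hDg : HasFDerivAt g D x := by rw [hgdef, hD]; exact fderiv_slice hM s x
  have hPs : HasFDerivAt N P x := by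
    rw [hPdef]; exact (Pool.Agent.L7h69.PI.strictN hR hx).hasFDerivAt
  obtain ⟨g', hg'⟩ : ∃ g' : E → E, g' = fun z => g (N z) := ⟨_, rfl⟩
  have hBs : HasFDerivAt g' (D.comp P) x := by
    have h1 : HasFDerivAt g D (N x) := by rw [hNx]; exact hDg
    rw [hg']
    exact h1.comp x hPs
  have hQB : ∀ v, Q (D (P v)) = D (P v) := by
    have h1 : HasFDerivAt N Q (g' x) := by
      rw [hQdef, hg']
      show HasFDerivAt N (fderiv ℝ N (g x)) (g (N x))
      rw [hNx]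
      exact (Pool.Agent.L7h69.PI.strictN hR hgx).hasFDerivAt
    have h2 := h1.comp x hBs
    have h3 : (N ∘ g') =ᶠ[𝓝 x] g' := by
      filter_upwards [hU] with z hz
      show N (g' z) = g' z
      rw [hg']
      exact hR.fix _ (hgd.2.1 _ (hR.maps z hz))
    have h4 := (hBs.congr_of_eventuallyEq h3).unique h2
    intro v
    exact (congrArg (fun L : E →L[ℝ] E => L v) h4).symm
  refine ⟨A, fun v hv => ?_⟩
  have hv' : D (P v) + A (v - P v) = 0 := by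
    rw [hD, hPdef]
    exact hv
  rw [map_sub, hA3, sub_zero] at hv'
  have h2 : D (P v) = 0 := by
    have := congrArg Q hv'
    rw [map_add, hQB, hA1, add_zero, map_zero] at this
    exact this
  have h3 : A v = 0 := by rwa [h2, zero_add] at hv'
  have h4 : v = P v := hA2 v h3
  refine Pool.Agent.L7h34.AA.psi_inj (f := g) hR hemb.smooth hx ?_ (v := v) ?_
  · obtain ⟨c, hc, hcl⟩ := hemb.low
    exact ⟨c, hc, 1, one_pos, fun y hy _ => hcl x hx y hy⟩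
  · have h5 : HasFDerivAt (Pool.Agent.L7h34.AA.Psi N g)
        ((D.comp P).prod (ContinuousLinearMap.id ℝ E - P)) x := by
      have := hBs.prodMk ((hasFDerivAt_id x).sub hPs)
      rw [hg'] at this
      exact this
    rw [h5.fderiv]
    show (D (P v), v - P v) = 0
    rw [h2, ← h4, sub_self]
    rfl

/-- locally uniform goodness -/
theorem good_local (hR : Ret K U N) (hK : IsPreconnected K) (hM : ContDiff ℝ ∞ M)
    (hd : ∀ t, IsDiff K fun x => M (t, x)) (s : ℝ) {x : E} (hx : x ∈ K) :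
    ∃ c : ℝ, 0 < c ∧ ∀ᶠ q in 𝓝 (s, x), Good N M c q := by
  obtain ⟨A, hA⟩ := inj hR hK hM hd s hx
  obtain ⟨k, hk, hka⟩ := (TT N M A (s, x)).toLinearMap.exists_antilipschitzWith
    (LinearMap.ker_eq_bot'.2 fun v hv => hA v hv)
  have hk' : (0 : ℝ) < k := by exact_mod_cast hk
  have hlow : ∀ v, ‖v‖ ≤ k * ‖TT N M A (s, x) v‖ := by
    intro v
    have := hka.le_mul_dist v 0
    rw [map_zero, dist_zero_right, dist_zero_right] at this
    exact this
  have hcont : ContinuousAt (TT N M A) (s, x) := by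
    have h1 : ContinuousAt (fun q : ℝ × E => fderiv ℝ M q) (s, x) :=
      (hM.continuous_fderiv (by simp)).continuousAt
    have h2 : ContinuousAt (fun q : ℝ × E => fderiv ℝ N q.2) (s, x) := by
      have h3 : ContinuousAt (fderiv ℝ N) x :=
        ((hR.smooth.continuousOn_fderiv_of_isOpen hR.opn (by simp)).continuousAt
          (hR.opn.mem_nhds (hR.sub hx)))
      exact ContinuousAt.comp (f := Prod.snd) (g := fderiv ℝ N) h3 continuousAt_snd
    have h4 : ContinuousAt (fun q : ℝ × E => ((fderiv ℝ M q).comp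
        (ContinuousLinearMap.inr ℝ ℝ E)).comp (fderiv ℝ N q.2)) (s, x) :=
      (h1.clm_comp continuousAt_const).clm_comp h2
    have h5 : ContinuousAt (fun q : ℝ × E => A.comp (ContinuousLinearMap.id ℝ E - fderiv ℝ N q.2))
        (s, x) := continuousAt_const.clm_comp (continuousAt_const.sub h2)
    exact h4.add h5
  obtain ⟨c, hc⟩ : ∃ c : ℝ, c = min ((2 * (k : ℝ))⁻¹)
    (‖TT N M A (s, x)‖ + (2 * (k : ℝ))⁻¹ + ‖A‖)⁻¹ := ⟨_, rfl⟩
  have hcpos : 0 < c := by rw [hc]; positivity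
  have hci : ‖TT N M A (s, x)‖ + (2 * (k : ℝ))⁻¹ + ‖A‖ ≤ c⁻¹ := by
    rw [le_inv_comm₀ (by positivity) hcpos, hc]
    exact min_le_right _ _
  refine ⟨c, hcpos, ?_⟩
  have h6 : ∀ᶠ q in 𝓝 (s, x), ‖TT N M A q - TT N M A (s, x)‖ < (2 * (k : ℝ))⁻¹ := by
    have := hcont.eventually (Metric.ball_mem_nhds _ (by positivity : (0 : ℝ) < (2 * (k : ℝ))⁻¹))
    filter_upwards [this] with q hq
    rwa [← dist_eq_norm]
  filter_upwards [h6] with q hq
  have h7 : ∀ v, ‖TT N M A q v - TT N M A (s, x) v‖ ≤ (2 * (k : ℝ))⁻¹ * ‖v‖ := by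
    intro v
    have := (TT N M A q - TT N M A (s, x)).le_opNorm v
    exact this.trans (mul_le_mul_of_nonneg_right hq.le (norm_nonneg _))
  refine ⟨A, ?_, fun v => ?_, fun v => ?_⟩
  · have : 0 ≤ ‖TT N M A (s, x)‖ := norm_nonneg _
    have h8 : (0 : ℝ) < (2 * (k : ℝ))⁻¹ := by positivity
    linarith
  · have h8 := hlow v
    have h9 := h7 v
    have h10 : ‖TT N M A (s, x) v‖ ≤ ‖TT N M A q v‖ + ‖TT N M A q v - TT N M A (s, x) v‖ := by
      have e : TT N M A (s, x) v = TT N M A q v - (TT N M A q v - TT N M A (s, x) v) := by abel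
      conv_lhs => rw [e]
      exact norm_sub_le _ _
    have h11 : c ≤ (2 * (k : ℝ))⁻¹ := by rw [hc]; exact min_le_left _ _
    have h12 : (k : ℝ)⁻¹ * ‖v‖ ≤ ‖TT N M A (s, x) v‖ := by
      rw [inv_mul_le_iff₀ hk']
      exact h8
    have h13 : (k : ℝ)⁻¹ = (2 * (k : ℝ))⁻¹ + (2 * (k : ℝ))⁻¹ := by
      field_simp
      norm_num
    have h14 : c * ‖v‖ ≤ (2 * (k : ℝ))⁻¹ * ‖v‖ := mul_le_mul_of_nonneg_right h11 (norm_nonneg _)
    rw [h13, add_mul] at h12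
    linarith
  · have h8 := (TT N M A (s, x)).le_opNorm v
    have h9 := h7 v
    have h10 : ‖TT N M A q v‖ ≤ ‖TT N M A (s, x) v‖ + ‖TT N M A q v - TT N M A (s, x) v‖ := by
      have e : TT N M A q v = TT N M A (s, x) v + (TT N M A q v - TT N M A (s, x) v) := by abel
      conv_lhs => rw [e]
      exact norm_add_le _ _
    have h11 : (‖TT N M A (s, x)‖ + (2 * (k : ℝ))⁻¹) * ‖v‖ ≤ c⁻¹ * ‖v‖ := by
      refine mul_le_mul_of_nonneg_right ?_ (norm_nonneg _)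
      have := norm_nonneg A
      linarith
    rw [add_mul] at h11
    linarith

theorem good_all (hR : Ret K U N) (hK : IsPreconnected K) (hM : ContDiff ℝ ∞ M)
    (hd : ∀ t, IsDiff K fun x => M (t, x)) :
    ∃ c : ℝ, 0 < c ∧ ∀ q ∈ Icc (0 : ℝ) 1 ×ˢ K, Good N M c q := by
  refine (isCompact_Icc.prod hR.cpt).induction_on
    (p := fun S => ∃ c : ℝ, 0 < c ∧ ∀ q ∈ S, Good N M c q) ⟨1, one_pos, by simp⟩ ?_ ?_ ?_
  · rintro S S' hS ⟨c, hc, h⟩
    exact ⟨c, hc, fun q hq => h q (hS hq)⟩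
  · rintro S S' ⟨c, hc, h⟩ ⟨c', hc', h'⟩
    refine ⟨min c c', lt_min hc hc', fun q hq => ?_⟩
    rcases hq with hq | hq
    · exact (h q hq).mono (lt_min hc hc') (min_le_left _ _)
    · exact (h' q hq).mono (lt_min hc hc') (min_le_right _ _)
  · rintro ⟨s, x⟩ ⟨hs, hx⟩
    obtain ⟨c, hc, h⟩ := good_local hR hK hM hd s (x := x) hx
    exact ⟨_, mem_nhdsWithin_of_mem_nhds h, c, hc, fun q hq => hq⟩

theorem s_CONV : S_CONV := by
  intro E _ _ _ K U N M hR hK hM hd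
  obtain ⟨c, hc, hgood⟩ := good_all hR hK hM hd
  -- a bound for the derivative of `M`
  have hcpt : IsCompact (Icc (0 : ℝ) 1 ×ˢ K) := isCompact_Icc.prod hR.cpt
  obtain ⟨B, hB⟩ := hcpt.exists_bound_of_continuousOn
    (hM.continuous_fderiv (by simp)).continuousOn
  obtain ⟨B', hB'⟩ : ∃ B' : ℝ, B' = |B| := ⟨_, rfl⟩
  have hB'0 : 0 ≤ B' := by rw [hB']; exact abs_nonneg _
  have hB'1 : ∀ q ∈ Icc (0 : ℝ) 1 ×ˢ K, ‖fderiv ℝ M q‖ ≤ B' := fun q hq =>
    (hB q hq).trans (by rw [hB']; exact le_abs_self _)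
  refine ⟨c⁻¹ * c⁻¹, fun ε hε => ?_⟩
  obtain ⟨κ, hκ⟩ : ∃ κ : ℝ, κ = ε * c / (1 + B' + c⁻¹) := ⟨_, rfl⟩
  have hκpos : 0 < κ := by rw [hκ]; positivity
  have hκ1 : κ * (1 + B' + c⁻¹) = ε * c := by
    rw [hκ]
    field_simp
  obtain ⟨w, hw, hus⟩ := Pool.Agent.L7h69.PI.unif_strict hcpt isOpen_univ (subset_univ _)
    hM.contDiffOn hκpos
  obtain ⟨w', hw', hnu⟩ := (Pool.Agent.L7h69.PI.s_NU E K U N hR).1 κ hκpos
  refine ⟨min w w', lt_min hw hw', fun r hr hrr s hs x hx => ?_⟩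
  obtain ⟨A, hA, hT1, hT2⟩ := hgood (s, x) ⟨hs, hx⟩
  refine ⟨c, TT N M A (s, x), M (s, x) - TT N M A (s, x) x, hc, hT1, fun v => ?_, fun y hy hyx => ?_⟩
  · have : c⁻¹ * c⁻¹ * c = c⁻¹ := by field_simp
    rw [this]
    exact hT2 v
  · have hyw : ‖y - x‖ < w := hyx.trans_lt (hrr.trans_le (min_le_left _ _))
    have hyw' : ‖y - x‖ < w' := hyx.trans_lt (hrr.trans_le (min_le_right _ _))
    have e1 := (hus (s, x) ⟨hs, hx⟩ (s, y) (s, x) (by
      rw [Prod.mk_sub_mk, sub_self, Prod.norm_mk, norm_zero]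
      exact max_lt hw hyw) (by rw [sub_self, norm_zero]; exact hw)).2.2
    have e2 := (hnu x hx y x hyw' (by rw [sub_self, norm_zero]; exact hw')).2.2
    rw [hR.fix y hy, hR.fix x hx] at e2
    have e1' : ‖(M (s, y) - M (s, x)) - fderiv ℝ M (s, x) (0, y - x)‖ ≤ κ * ‖y - x‖ := by
      have h1 : ((s, y) - (s, x) : ℝ × E) = (0, y - x) := by rw [Prod.mk_sub_mk, sub_self]
      rw [h1, Prod.norm_mk, norm_zero, max_eq_right (norm_nonneg _)] at e1
      exact e1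
    obtain ⟨u, hu⟩ : ∃ u, u = (y - x) - fderiv ℝ N x (y - x) := ⟨_, rfl⟩
    have e3 : ‖u‖ ≤ κ * ‖y - x‖ := by rw [hu]; exact e2
    have e4 : M (s, y) - (TT N M A (s, x) y + (M (s, x) - TT N M A (s, x) x)) =
        ((M (s, y) - M (s, x)) - fderiv ℝ M (s, x) (0, y - x)) +
          (fderiv ℝ M (s, x) (0, u) - A u) := by
      have h1 : M (s, y) - (TT N M A (s, x) y + (M (s, x) - TT N M A (s, x) x)) =
        (M (s, y) - M (s, x)) - TT N M A (s, x) (y - x) := by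
        rw [map_sub]; abel
      have h2 : TT N M A (s, x) (y - x) = fderiv ℝ M (s, x) (0, fderiv ℝ N x (y - x)) + A u := by
        rw [hu]
        rfl
      have h3 : fderiv ℝ M (s, x) (0, u) = fderiv ℝ M (s, x) (0, y - x) -
          fderiv ℝ M (s, x) (0, fderiv ℝ N x (y - x)) := by
        rw [← map_sub, Prod.mk_sub_mk, sub_self, hu]
      rw [h1, h2, h3]
      abel
    rw [e4]
    have e5 : ‖fderiv ℝ M (s, x) (0, u)‖ ≤ B' * ‖u‖ := by
      have h1 := (fderiv ℝ M (s, x)).le_opNorm (0, u)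
      rw [Prod.norm_mk, norm_zero, max_eq_right (norm_nonneg _)] at h1
      exact h1.trans (mul_le_mul_of_nonneg_right (hB'1 _ ⟨hs, hx⟩) (norm_nonneg _))
    have e6 : ‖A u‖ ≤ c⁻¹ * ‖u‖ :=
      (A.le_opNorm u).trans (mul_le_mul_of_nonneg_right hA (norm_nonneg _))
    have hci : 0 < c⁻¹ := inv_pos.2 hc
    have e7 : B' * ‖u‖ ≤ B' * (κ * ‖y - x‖) := mul_le_mul_of_nonneg_left e3 hB'0
    have e8 : c⁻¹ * ‖u‖ ≤ c⁻¹ * (κ * ‖y - x‖) := mul_le_mul_of_nonneg_left e3 hci.le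
    calc _ ≤ ‖(M (s, y) - M (s, x)) - fderiv ℝ M (s, x) (0, y - x)‖ +
          ‖fderiv ℝ M (s, x) (0, u) - A u‖ := norm_add_le _ _
      _ ≤ κ * ‖y - x‖ + (‖fderiv ℝ M (s, x) (0, u)‖ + ‖A u‖) :=
          add_le_add e1' (norm_sub_le _ _)
      _ ≤ κ * ‖y - x‖ + (B' * (κ * ‖y - x‖) + c⁻¹ * (κ * ‖y - x‖)) := by linarith
      _ = (κ * (1 + B' + c⁻¹)) * ‖y - x‖ := by ring
      _ = ε * c * ‖y - x‖ := by rw [hκ1]
      _ ≤ ε * c * r := mul_le_mul_of_nonneg_left hyx (by positivity)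

end Pool.Agent.L7h67.PI
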